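import Pool.Agent.N65.GP.Defs

/-!
# Project GP (helper65), part PS: from the kernels to polynomials (helper861)
-/

set_option autoImplicit false

namespace Pool.Agent.N861.GP.PS

open Pool.Agent.N65.GP MeasureTheory Filter Topology

/-- Expansion of an integral in a power series. -/
theorem hasSum_one (f q : ℝ → ℂ) (hf : Continuous f) (hq : Continuous q) (κ : ℕ → ℂ)
    (hκ : ∀ n, ‖κ n‖ ≤ 1) (k : ℂ → ℂ)
    (hk : ∀ s : ℂ, ‖s‖ < 1 → HasSum (fun n => κ n * s ^ n) (k s)) (v : ℂ)
    (hv : ∀ t, ‖v * q t‖ ≤ 1 / 2) :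
    HasSum (fun n => v ^ n * (κ n * ∫ t in (0 : ℝ)..1, f t * q t ^ n))
      (∫ t in (0 : ℝ)..1, f t * k (v * q t)) := by
  have h := intervalIntegral.hasSum_integral_of_dominated_convergence (μ := volume) (a := 0)
    (b := 1) (F := fun (n : ℕ) (t : ℝ) => f t * (κ n * (v * q t) ^ n))
    (f := fun t => f t * k (v * q t)) (fun n t => ‖f t‖ * (1 / 2 : ℝ) ^ n)
    (fun n => (Continuous.aestronglyMeasurable (by fun_prop)))
    (fun n => Eventually.of_forall fun t _ => ?_)
    (Eventually.of_forall fun t _ => (summable_geometric_of_lt_one (by norm_num)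
      (by norm_num)).mul_left _)
    ?_ (Eventually.of_forall fun t _ => (hk _ (lt_of_le_of_lt (hv t) (by norm_num))).mul_left _)
  · have e : ∀ n : ℕ, v ^ n * (κ n * ∫ t in (0 : ℝ)..1, f t * q t ^ n) =
        ∫ t in (0 : ℝ)..1, f t * (κ n * (v * q t) ^ n) := by
      intro n
      rw [← intervalIntegral.integral_const_mul, ← intervalIntegral.integral_const_mul]
      congr 1
      funext t
      rw [mul_pow]
      ring
    simp_rw [e]
    exact h
  · rw [norm_mul, norm_mul, norm_pow]
    refine mul_le_mul_of_nonneg_left ?_ (norm_nonneg _)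
    calc ‖κ n‖ * ‖v * q t‖ ^ n ≤ 1 * (1 / 2 : ℝ) ^ n :=
          mul_le_mul (hκ n) (pow_le_pow_left₀ (norm_nonneg _) (hv t) n) (by positivity)
            (by norm_num)
      _ = _ := one_mul _
  · simp_rw [tsum_mul_left]
    exact (hf.norm.mul continuous_const).intervalIntegrable _ _

theorem key {ι : Type} [Fintype ι] (w : ι → ℂ) (f q : ι → ℝ → ℂ) (hf : ∀ l, Continuous (f l))
    (hq : ∀ l, Continuous (q l)) (R : ℝ) (hR : 0 < R) (hqR : ∀ l t, ‖q l t‖ < R) (κ : ℕ → ℂ)
    (hκ : ∀ n, ‖κ n‖ ≤ 1) (k : ℂ → ℂ)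
    (hk : ∀ s : ℂ, ‖s‖ < 1 → HasSum (fun n => κ n * s ^ n) (k s))
    (h0 : ∀ v : ℂ, v ≠ 0 → ‖v‖ < 1 / (2 * R) →
      ∑ l, w l * ∫ t in (0 : ℝ)..1, f l t * k (v * q l t) = 0) (n : ℕ) :
    κ n * ∑ l, w l * ∫ t in (0 : ℝ)..1, f l t * q l t ^ n = 0 := by
  obtain ⟨c, hc⟩ : ∃ c : ℕ → ℂ, c = fun n => κ n * ∑ l, w l * ∫ t in (0 : ℝ)..1,
    f l t * q l t ^ n := ⟨_, rfl⟩
  obtain ⟨H, hH⟩ : ∃ H : ℂ → ℂ, H = fun v => ∑ l, w l * ∫ t in (0 : ℝ)..1,
    f l t * k (v * q l t) := ⟨_, rfl⟩
  have hδ : 0 < 1 / (2 * R) := by positivity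
  have hs : ∀ v : ℂ, ‖v‖ < 1 / (2 * R) → HasSum (fun n => v ^ n • c n) (H v) := by
    intro v hv
    have hv' : ∀ l t, ‖v * q l t‖ ≤ 1 / 2 := by
      intro l t
      rw [norm_mul]
      calc ‖v‖ * ‖q l t‖ ≤ 1 / (2 * R) * R :=
            mul_le_mul hv.le (hqR l t).le (norm_nonneg _) hδ.le
        _ = 1 / 2 := by field_simp
    have h1 := hasSum_sum (s := Finset.univ) (fun l (_ : l ∈ Finset.univ) =>
      (hasSum_one (f l) (q l) (hf l) (hq l) κ hκ k hk v (hv' l)).mul_left (w l))
    rw [hH]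
    refine h1.congr_fun fun n => ?_
    have hcn : c n = κ n * ∑ l, w l * ∫ t in (0 : ℝ)..1, f l t * q l t ^ n := by rw [hc]
    rw [hcn, smul_eq_mul, Finset.mul_sum, Finset.mul_sum]
    refine Finset.sum_congr rfl fun l _ => ?_
    ring
  obtain ⟨p, hp⟩ : ∃ p : FormalMultilinearSeries ℂ ℂ ℂ,
    p = fun n => ContinuousMultilinearMap.mkPiRing ℂ (Fin n) (c n) := ⟨_, rfl⟩
  have hpc : ∀ n, p.coeff n = c n := by
    intro n
    rw [hp]
    simp [FormalMultilinearSeries.coeff, ContinuousMultilinearMap.mkPiRing_apply]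
  have hH1 : HasFPowerSeriesAt H p 0 := by
    rw [hasFPowerSeriesAt_iff]
    filter_upwards [Metric.ball_mem_nhds (0 : ℂ) hδ] with v hv
    simp_rw [hpc, zero_add]
    exact hs v (by simpa using hv)
  have hH0 : ∀ᶠ v in 𝓝 (0 : ℂ), H v = 0 := by
    apply (AnalyticAt.frequently_zero_iff_eventually_zero hH1.analyticAt).1
    apply Eventually.frequently
    rw [eventually_nhdsWithin_iff]
    filter_upwards [Metric.ball_mem_nhds (0 : ℂ) hδ] with v hv hv0
    rw [hH]
    exact h0 v hv0 (by simpa using hv)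
  have hp0 : p = 0 := (hH1.congr hH0).eq_zero
  have h7 := hpc n
  have hcn : c n = κ n * ∑ l, w l * ∫ t in (0 : ℝ)..1, f l t * q l t ^ n := by rw [hc]
  rw [hp0, hcn] at h7
  rw [← h7]
  simp [FormalMultilinearSeries.coeff]

/-! ## The two kernels -/

theorem kernel_geom (s : ℂ) (hs : ‖s‖ < 1) :
    HasSum (fun n : ℕ => (1 : ℂ) * s ^ n) ((1 - s)⁻¹) := by
  simpa using hasSum_geometric_of_norm_lt_one hs

theorem kernel_log (s : ℂ) (hs : ‖s‖ < 1) :
    HasSum (fun n : ℕ => (-(1 / (n : ℂ))) * s ^ n) (Complex.log (1 - s)) := by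
  have h := (Complex.hasSum_taylorSeries_neg_log hs).neg
  rw [neg_neg] at h
  refine h.congr_fun fun n => ?_
  ring

theorem norm_log_coeff (n : ℕ) : ‖(-(1 / (n : ℂ)))‖ ≤ 1 := by
  rw [norm_neg, norm_div, norm_one, Complex.norm_natCast]
  rcases Nat.eq_zero_or_pos n with h | h
  · rw [h]; simp
  · rw [div_le_one (by exact_mod_cast h)]
    exact_mod_cast h

/-! ## Monomials -/

theorem continuous_log (y : ℝ → ℂ) (hy : Continuous y) (m : ℂ) (h : ∀ t, ‖y t‖ < ‖m‖) :
    Continuous fun t => Complex.log (1 - y t / m) := by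
  refine Continuous.clog (by fun_prop) fun t => ?_
  have hm : 0 < ‖m‖ := lt_of_le_of_lt (norm_nonneg _) (h t)
  have h1 : ‖y t / m‖ < 1 := by
    rw [norm_div, div_lt_one hm]
    exact h t
  left
  rw [Complex.sub_re, Complex.one_re]
  have := Complex.re_le_norm (y t / m)
  linarith

theorem monomial {ι : Type} [Fintype ι] (γ : ι → Loop) (w : ι → ℝ) (R : ℝ) (hR : 0 < R)
    (hb : Bd γ R)
    (h : ∀ m c : ℂ, R < ‖m‖ → R < ‖c‖ → ∑ l, (w l : ℂ) * (γ l).int (ker m c) = 0) (a b : ℕ) :
    ∑ l, (w l : ℂ) * ∫ t in (0 : ℝ)..1, (γ l).x t ^ b * (γ l).y t ^ a * deriv (γ l).x t = 0 := by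
  have hx : ∀ l, Continuous (γ l).x := fun l => (γ l).hx.continuous
  have hy : ∀ l, Continuous (γ l).y := fun l => (γ l).hy.continuous
  have hx' : ∀ l, Continuous (deriv (γ l).x) := fun l => (γ l).hx.continuous_deriv le_rfl
  have hsmall : ∀ v : ℂ, v ≠ 0 → ‖v‖ < 1 / (2 * R) → R < ‖v⁻¹‖ := by
    intro v hv0 hv
    have hvp : 0 < ‖v‖ := norm_pos_iff.2 hv0
    rw [norm_inv, lt_inv_comm₀ hR hvp]
    refine hv.trans ?_
    rw [one_div]
    exact inv_strictAnti₀ hR (by linarith)
  rcases Nat.eq_zero_or_pos a with ha | ha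
  · -- exact forms
    refine Finset.sum_eq_zero fun l _ => ?_
    have h1 : ∫ t in (0 : ℝ)..1, (γ l).x t ^ b * (γ l).y t ^ a * deriv (γ l).x t =
        (γ l).x 1 ^ (b + 1) / (b + 1) - (γ l).x 0 ^ (b + 1) / (b + 1) := by
      rw [ha]
      apply intervalIntegral.integral_eq_sub_of_hasDerivAt
        (f := fun t => (γ l).x t ^ (b + 1) / ((b : ℂ) + 1))
      · intro t _
        have hd : HasDerivAt (γ l).x (deriv (γ l).x t) t :=
          ((γ l).hx.differentiable (by norm_num) t).hasDerivAt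
        have h2 := (hd.pow (b + 1)).div_const ((b : ℂ) + 1)
        have hb0 : (b : ℂ) + 1 ≠ 0 := by exact_mod_cast Nat.succ_ne_zero b
        have h3 : ((b + 1 : ℕ) : ℂ) * (γ l).x t ^ (b + 1 - 1) * deriv (γ l).x t / ((b : ℂ) + 1) =
            (γ l).x t ^ b * (γ l).y t ^ 0 * deriv (γ l).x t := by
          rw [pow_zero, mul_one, Nat.add_sub_cancel]
          push_cast
          field_simp
        rw [h3] at h2
        exact h2
      · apply Continuous.intervalIntegrable
        have := hx l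
        have := hy l
        have := hx' l
        fun_prop
    have h2 : (γ l).x 1 = (γ l).x 0 := by
      have := (γ l).px 0
      rwa [zero_add] at this
    rw [h1, h2, sub_self, mul_zero]
  -- first step
  have h1 : ∀ m : ℂ, R < ‖m‖ → ∑ l, (w l : ℂ) * ∫ t in (0 : ℝ)..1,
      (Complex.log (1 - (γ l).y t / m) * deriv (γ l).x t) * (γ l).x t ^ b = 0 := by
    intro m hm
    have h2 := key (fun l => (w l : ℂ))
      (fun l t => Complex.log (1 - (γ l).y t / m) * deriv (γ l).x t) (fun l => (γ l).x)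
      (fun l => (continuous_log _ (hy l) m fun t => (hb l t).2.trans hm).mul (hx' l)) hx R hR
      (fun l t => (hb l t).1) (fun _ => 1) (fun _ => by simp) (fun s => (1 - s)⁻¹)
      kernel_geom (fun v hv0 hv => by
        have h3 := h m v⁻¹ hm (hsmall v hv0 hv)
        have h4 : ∀ l, (γ l).int (ker m v⁻¹) = (-v) * ∫ t in (0 : ℝ)..1,
            (Complex.log (1 - (γ l).y t / m) * deriv (γ l).x t) * (1 - v * (γ l).x t)⁻¹ := by
          intro l
          unfold Loop.int Pool.Agent.N65.GP.ker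
          rw [← intervalIntegral.integral_const_mul]
          congr 1
          funext t
          have h5 : ‖v * (γ l).x t‖ < 1 := by
            rw [norm_mul]
            calc ‖v‖ * ‖(γ l).x t‖ ≤ 1 / (2 * R) * R :=
                  mul_le_mul hv.le (hb l t).1.le (norm_nonneg _) (by positivity)
              _ = 1 / 2 := by field_simp
              _ < 1 := by norm_num
          have h6 : 1 - v * (γ l).x t ≠ 0 := by
            intro h7
            have h8 : v * (γ l).x t = 1 := by linear_combination -h7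
            rw [h8, norm_one] at h5
            exact lt_irrefl _ h5
          have h9 : (γ l).x t - v⁻¹ = -(v⁻¹ * (1 - v * (γ l).x t)) := by
            field_simp
            ring
          rw [h9, div_neg, mul_comm v⁻¹, ← div_div, div_inv_eq_mul, div_eq_mul_inv]
          ring
        simp_rw [h4] at h3
        have h5 : ∑ l, (w l : ℂ) * ((-v) * ∫ t in (0 : ℝ)..1,
            (Complex.log (1 - (γ l).y t / m) * deriv (γ l).x t) * (1 - v * (γ l).x t)⁻¹) =
            (-v) * ∑ l, (w l : ℂ) * ∫ t in (0 : ℝ)..1,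
            (Complex.log (1 - (γ l).y t / m) * deriv (γ l).x t) * (1 - v * (γ l).x t)⁻¹ := by
          rw [Finset.mul_sum]
          refine Finset.sum_congr rfl fun l _ => ?_
          ring
        rw [h5] at h3
        exact (mul_eq_zero.1 h3).resolve_left (neg_ne_zero.2 hv0)) b
    simpa using h2
  -- second step
  have h2 := key (fun l => (w l : ℂ)) (fun l t => deriv (γ l).x t * (γ l).x t ^ b)
    (fun l => (γ l).y) (fun l => (hx' l).mul ((hx l).pow b)) hy R hR (fun l t => (hb l t).2)
    (fun n => -(1 / (n : ℂ))) norm_log_coeff (fun s => Complex.log (1 - s)) kernel_log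
    (fun v hv0 hv => by
      have h3 := h1 v⁻¹ (hsmall v hv0 hv)
      rw [← h3]
      refine Finset.sum_congr rfl fun l _ => ?_
      congr 1
      congr 1
      funext t
      rw [div_inv_eq_mul, mul_comm ((γ l).y t) v]
      ring) a
  have h3 : (-(1 / (a : ℂ))) ≠ 0 := by
    rw [neg_ne_zero]
    exact one_div_ne_zero (by exact_mod_cast ha.ne')
  have h4 := (mul_eq_zero.1 h2).resolve_left h3
  rw [← h4]
  refine Finset.sum_congr rfl fun l _ => ?_
  congr 1
  congr 1
  funext t
  ring

/-! ## Polynomials -/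

open Polynomial in
theorem evalEval_monomial' (x y a : ℂ) (m n : ℕ) :
    (Polynomial.monomial n (Polynomial.monomial m a) : ℂ[X][X]).evalEval x y =
      a * (x ^ m * y ^ n) := by
  simp [Polynomial.evalEval, Polynomial.eval_monomial]
  ring

open Polynomial in
theorem poly_ind (P : ℂ[X][X] → Prop) (h1 : ∀ p q, P p → P q → P (p + q))
    (h2 : ∀ (n m : ℕ) (a : ℂ), P (Polynomial.monomial n (Polynomial.monomial m a))) (G : ℂ[X][X]) :
    P G := by
  induction G using Polynomial.induction_on' with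
  | add p q hp hq => exact h1 p q hp hq
  | monomial n p =>
    induction p using Polynomial.induction_on' with
    | add p q hp hq =>
      rw [map_add]
      exact h1 _ _ hp hq
    | monomial m a => exact h2 n m a

open Polynomial in
theorem continuous_evalEval (x y : ℝ → ℂ) (hx : Continuous x) (hy : Continuous y) (G : ℂ[X][X]) :
    Continuous fun t => G.evalEval (x t) (y t) := by
  refine poly_ind (fun G => Continuous fun t => G.evalEval (x t) (y t))
    (fun p q hp hq => ?_) (fun n m a => ?_) G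
  · simp_rw [Polynomial.evalEval_add]
    exact hp.add hq
  · simp_rw [evalEval_monomial']
    fun_prop

theorem t_PS : S_PS := by
  intro ι _ γ w R hb h G
  rcases isEmpty_or_nonempty ι with hι | ⟨⟨l0⟩⟩
  · simp
  have hR : 0 < R := lt_of_le_of_lt (norm_nonneg _) (hb l0 0).1
  have hc : ∀ (p : Polynomial (Polynomial ℂ)) (l : ι), IntervalIntegrable
      (fun t => p.evalEval ((γ l).x t) ((γ l).y t) * deriv (γ l).x t) volume 0 1 := fun p l =>
    ((continuous_evalEval _ _ (γ l).hx.continuous (γ l).hy.continuous p).mul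
      ((γ l).hx.continuous_deriv le_rfl)).intervalIntegrable _ _
  refine poly_ind (fun G => ∑ l, (w l : ℂ) * (γ l).int (fun x y => G.evalEval x y) = 0)
    (fun p q hp hq => ?_) (fun n m a => ?_) G
  · have e : ∀ l, (γ l).int (fun x y => (p + q).evalEval x y) =
        (γ l).int (fun x y => p.evalEval x y) + (γ l).int (fun x y => q.evalEval x y) := by
      intro l
      unfold Loop.int
      rw [← intervalIntegral.integral_add (hc p l) (hc q l)]
      congr 1
      funext t
      show Polynomial.evalEval ((γ l).x t) ((γ l).y t) (p + q) * deriv (γ l).x t = _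
      rw [Polynomial.evalEval_add, add_mul]
    simp_rw [e, mul_add]
    rw [Finset.sum_add_distrib, hp, hq, add_zero]
  · have h1 := monomial γ w R hR hb h n m
    have e : ∀ l, (γ l).int (fun x y =>
        (Polynomial.monomial n (Polynomial.monomial m a) : Polynomial (Polynomial ℂ)).evalEval x y) =
        a * ∫ t in (0 : ℝ)..1, (γ l).x t ^ m * (γ l).y t ^ n * deriv (γ l).x t := by
      intro l
      unfold Loop.int
      rw [← intervalIntegral.integral_const_mul]
      congr 1
      funext t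
      show Polynomial.evalEval ((γ l).x t) ((γ l).y t)
        (Polynomial.monomial n (Polynomial.monomial m a)) * deriv (γ l).x t = _
      rw [evalEval_monomial']
      ring
    simp_rw [e]
    have e2 : ∑ l, (w l : ℂ) * (a * ∫ t in (0 : ℝ)..1,
        (γ l).x t ^ m * (γ l).y t ^ n * deriv (γ l).x t) = a * ∑ l, (w l : ℂ) *
        ∫ t in (0 : ℝ)..1, (γ l).x t ^ m * (γ l).y t ^ n * deriv (γ l).x t := by
      rw [Finset.mul_sum]
      refine Finset.sum_congr rfl fun l _ => ?_
      ring
    rw [e2, h1, mul_zero]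

end Pool.Agent.N861.GP.PS
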